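import Pool.Agent.Q178.QN.Finite

/-!
# The Quillen negation monoid of Top is finite
-/

open CategoryTheory

universe u

namespace Pool.Agent.Results.MP_97cbc3_al.FiniteMonoid

/-- The two letters. -/
inductive Letter
  | l
  | r

/-- The Quillen negations of a class of morphisms of `Top`: `P ^ l` consists of the maps with the
left lifting property, `P ^ r` of the maps with the right lifting property with respect to all
members of `P`. -/
def neg (P : MorphismProperty TopCat.{u}) : Letter → MorphismProperty TopCat.{u}
  | Letter.l => P.llp
  | Letter.r => P.rlp

/-- `P ^ w`: apply the letters of `w` from left to right. -/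
def power (P : MorphismProperty TopCat.{u}) (w : FreeMonoid Letter) :
    MorphismProperty TopCat.{u} :=
  w.toList.foldl neg P

/-- Two words `w`, `w'` are identified if `P ^ w = P ^ w'` for every class `P` of morphisms of
`Top`. -/
def identified : Con (FreeMonoid Letter) where
  r w w' := ∀ P : MorphismProperty TopCat.{u}, power P w = power P w'
  iseqv := ⟨fun _ _ => rfl, fun h P => (h P).symm, fun h h' P => (h P).trans (h' P)⟩
  mul' := by
    intro w w' v v' h h' P
    have e : ∀ a b : FreeMonoid Letter, power P (a * b) = power (power P a) b := by
      intro a b
      unfold power
      rw [FreeMonoid.toList_mul, List.foldl_append]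
    rw [e, e, h P, h' _]

/-- The Quillen negation monoid of `Top`: the words modulo the identification, with the
concatenation as product. -/
abbrev QN : Type := (identified.{u}).Quotient

/-- The letters of the library. -/
def tr : Letter → Q178.Orth.Letter
  | Letter.l => Q178.Orth.Letter.l
  | Letter.r => Q178.Orth.Letter.r

lemma power_eq (w : List Letter) : ∀ P : MorphismProperty TopCat.{u},
    w.foldl neg P = (w.map tr).foldl Q178.Orth.orth P := by
  induction w with
  | nil => exact fun _ => rfl
  | cons a w ih =>
    intro P
    cases a
    · exact ih _
    · exact ih _

/-- The Quillen negation monoid of the category of all topological spaces is finite. -/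
theorem result : Finite QN.{u} := by
  have hfin := Q178.QN.finite_operators.{u}
  have hfin' : (Set.range (fun (w : FreeMonoid Letter) (P : MorphismProperty TopCat.{u}) =>
      power P w)).Finite := by
    refine hfin.subset ?_
    rintro _ ⟨w, rfl⟩
    refine ⟨w.toList.map tr, ?_⟩
    funext P
    exact (power_eq w.toList P).symm
  have := hfin'.to_subtype
  let F : QN.{u} → Set.range (fun (w : FreeMonoid Letter) (P : MorphismProperty TopCat.{u}) =>
      power P w) := fun q => Quotient.liftOn q
    (fun w => ⟨fun P => power P w, w, rfl⟩)
    (fun w w' h => Subtype.ext (funext fun P => h P))
  refine Finite.of_injective F ?_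
  intro q q'
  induction q using Quotient.inductionOn with | _ w => ?_
  induction q' using Quotient.inductionOn with | _ w' => ?_
  intro h
  apply Quotient.sound
  intro P
  exact congrFun (congrArg Subtype.val h) P

end Pool.Agent.Results.MP_97cbc3_al.FiniteMonoid
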